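import Pool.Agent.Helper97.SZ.Goals

/-!
# Project SZ, packet STR
-/

set_option autoImplicit false

open Set Filter Topology Metric
open scoped ContDiff

namespace Pool.Agent.Helper50.SZ

open Pool.Agent.Helper91.SY Pool.Agent.Helper97.SZ

section gen
variable {E : Type} [NormedAddCommGroup E] [NormedSpace ℝ E]

theorem dd_smul (β : E → E →L[ℝ] ℝ) (hβ : Differentiable ℝ β) (t : ℝ) (x : E) :
    dd (fun x => t • β x) x = t • dd β x := by
  unfold dd
  rw [fderiv_fun_const_smul (hβ x) t]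
  ext u v
  simp
  ring

/-- stability of nondegeneracy -/
theorem nondeg_stable [FiniteDimensional ℝ E] (B0 : E →L[ℝ] E →L[ℝ] ℝ)
    (h0 : ∀ u, (∀ v, B0 u v = 0) → u = 0) : ∃ δ : ℝ, 0 < δ ∧ ∀ (A : E →L[ℝ] E) (s : ℝ),
    ‖A - ContinuousLinearMap.id ℝ E‖ ≤ δ → 0 ≤ s → s ≤ 1 →
    ∀ u, (∀ v, B0 u v + s * (B0 (A u) (A v) - B0 u v) = 0) → u = 0 := by
  have hker : LinearMap.ker (B0 : E →ₗ[ℝ] (E →L[ℝ] ℝ)) = ⊥ := by
    rw [LinearMap.ker_eq_bot']
    intro u hu
    refine h0 u fun v => ?_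
    have hu : B0 u = 0 := hu
    rw [hu]
    rfl
  obtain ⟨K, hK, hAL⟩ := (B0 : E →ₗ[ℝ] (E →L[ℝ] ℝ)).exists_antilipschitzWith hker
  have hlow : ∀ u, ‖u‖ ≤ K * ‖B0 u‖ := by
    intro u
    have := hAL.le_mul_dist u 0
    simpa using this
  have hKr : (0 : ℝ) < K := hK
  obtain ⟨δ, hδ⟩ : ∃ δ : ℝ, δ = min 1 (1 / (2 * (3 * ‖B0‖ * K + 1))) := ⟨_, rfl⟩
  have hden : 0 < 2 * (3 * ‖B0‖ * K + 1) := by positivity
  have hδ0 : 0 < δ := by
    rw [hδ]
    exact lt_min one_pos (by positivity)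
  have hδ1 : δ ≤ 1 := by rw [hδ]; exact min_le_left _ _
  have hδ2 : 3 * ‖B0‖ * K * δ < 1 := by
    have h1 : δ ≤ 1 / (2 * (3 * ‖B0‖ * K + 1)) := by rw [hδ]; exact min_le_right _ _
    rw [le_div_iff₀ hden] at h1
    nlinarith [norm_nonneg B0]
  refine ⟨δ, hδ0, ?_⟩
  intro A s hA hs0 hs1 u hu
  obtain ⟨D, hD⟩ : ∃ D : E →L[ℝ] E, D = A - ContinuousLinearMap.id ℝ E := ⟨_, rfl⟩
  have hAD : ∀ v, A v = v + D v := by
    intro v
    rw [hD]
    simp
  rw [← hD] at hA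
  have hDv : ∀ v, ‖D v‖ ≤ δ * ‖v‖ := fun v =>
    (D.le_opNorm v).trans (mul_le_mul_of_nonneg_right hA (norm_nonneg _))
  have hB : ∀ a b, |B0 a b| ≤ ‖B0‖ * ‖a‖ * ‖b‖ := fun a b => B0.le_opNorm₂ a b
  have hn : ‖B0 u‖ ≤ 3 * ‖B0‖ * δ * ‖u‖ := by
    refine ContinuousLinearMap.opNorm_le_bound _ (by positivity) fun v => ?_
    have h1 : B0 u v = - (s * (B0 u (D v) + B0 (D u) v + B0 (D u) (D v))) := by
      have := hu v
      rw [hAD u, hAD v] at this
      simp only [map_add, _root_.add_apply] at this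
      linarith
    rw [Real.norm_eq_abs, h1, abs_neg, abs_mul, abs_of_nonneg hs0]
    have h2 : |B0 u (D v) + B0 (D u) v + B0 (D u) (D v)| ≤ 3 * ‖B0‖ * δ * ‖u‖ * ‖v‖ := by
      have e1 : |B0 u (D v)| ≤ ‖B0‖ * δ * ‖u‖ * ‖v‖ := by
        refine (hB _ _).trans ?_
        calc ‖B0‖ * ‖u‖ * ‖D v‖ ≤ ‖B0‖ * ‖u‖ * (δ * ‖v‖) :=
              mul_le_mul_of_nonneg_left (hDv v) (by positivity)
          _ = _ := by ring
      have e2 : |B0 (D u) v| ≤ ‖B0‖ * δ * ‖u‖ * ‖v‖ := by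
        refine (hB _ _).trans ?_
        calc ‖B0‖ * ‖D u‖ * ‖v‖ ≤ ‖B0‖ * (δ * ‖u‖) * ‖v‖ :=
              mul_le_mul_of_nonneg_right (mul_le_mul_of_nonneg_left (hDv u) (by positivity))
                (by positivity)
          _ = _ := by ring
      have e3 : |B0 (D u) (D v)| ≤ ‖B0‖ * δ * ‖u‖ * ‖v‖ := by
        refine (hB _ _).trans ?_
        calc ‖B0‖ * ‖D u‖ * ‖D v‖ ≤ ‖B0‖ * (δ * ‖u‖) * (δ * ‖v‖) :=
              mul_le_mul (mul_le_mul_of_nonneg_left (hDv u) (by positivity)) (hDv v)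
                (norm_nonneg _) (by positivity)
          _ = δ * (‖B0‖ * δ * ‖u‖ * ‖v‖) := by ring
          _ ≤ 1 * (‖B0‖ * δ * ‖u‖ * ‖v‖) := mul_le_mul_of_nonneg_right hδ1 (by positivity)
          _ = _ := one_mul _
      have e4 := abs_add_three (B0 u (D v)) (B0 (D u) v) (B0 (D u) (D v))
      linarith
    calc s * |B0 u (D v) + B0 (D u) v + B0 (D u) (D v)| ≤
          1 * (3 * ‖B0‖ * δ * ‖u‖ * ‖v‖) := mul_le_mul hs1 h2 (abs_nonneg _) zero_le_one
      _ = _ := one_mul _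
  have h3 := hlow u
  have h4 : ‖u‖ ≤ (3 * ‖B0‖ * K * δ) * ‖u‖ := by
    calc ‖u‖ ≤ K * ‖B0 u‖ := h3
      _ ≤ K * (3 * ‖B0‖ * δ * ‖u‖) := mul_le_mul_of_nonneg_left hn hKr.le
      _ = _ := by ring
  by_contra hne
  have h5 : 0 < ‖u‖ := norm_pos_iff.2 hne
  nlinarith

omit [NormedSpace ℝ E] in
/-- a bijection which is the identity far away preserves balls -/
theorem norm_lt_of_id (F : E ≃ E) (r d : ℝ) (hF : ∀ x, r < ‖x‖ → F x = x) (hd : r < d) (x : E)
    (hx : ‖x‖ < d) : ‖F x‖ < d := by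
  by_contra h
  have h1 : d ≤ ‖F x‖ := not_lt.1 h
  have h2 : F (F x) = F x := hF _ (lt_of_lt_of_le hd h1)
  have h3 : F x = x := F.injective h2
  rw [h3] at h1
  linarith

/-- derivative of a conjugation by a homothety -/
theorem fderiv_scale (f : E → E) (hf : Differentiable ℝ f) (ε : ℝ) (hε : ε ≠ 0) (x : E) :
    fderiv ℝ (fun x => ε • f (ε⁻¹ • x)) x = fderiv ℝ f (ε⁻¹ • x) := by
  have h1 : HasFDerivAt (fun x : E => ε⁻¹ • x) (ε⁻¹ • ContinuousLinearMap.id ℝ E) x :=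
    (hasFDerivAt_id x).const_smul ε⁻¹
  have h2 : HasFDerivAt f (fderiv ℝ f (ε⁻¹ • x)) (ε⁻¹ • x) := (hf _).hasFDerivAt
  have h3 := (h2.comp x h1).const_smul ε
  have h4 : ε • (fderiv ℝ f (ε⁻¹ • x)).comp (ε⁻¹ • ContinuousLinearMap.id ℝ E) =
      fderiv ℝ f (ε⁻¹ • x) := by
    ext v
    simp [smul_smul, hε]
  rw [h4] at h3
  exact h3.fderiv

/-- the same with a local hypothesis -/
theorem fderiv_scale' (f : E → E) (ε : ℝ) (hε : ε ≠ 0) (x : E)
    (hf : DifferentiableAt ℝ f (ε • x)) :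
    fderiv ℝ (fun x => ε⁻¹ • f (ε • x)) x = fderiv ℝ f (ε • x) := by
  have h1 : HasFDerivAt (fun x : E => ε • x) (ε • ContinuousLinearMap.id ℝ E) x :=
    (hasFDerivAt_id x).const_smul ε
  have h3 := (hf.hasFDerivAt.comp x h1).const_smul ε⁻¹
  have h4 : ε⁻¹ • (fderiv ℝ f (ε • x)).comp (ε • ContinuousLinearMap.id ℝ E) =
      fderiv ℝ f (ε • x) := by
    ext v
    simp [smul_smul, hε]
  rw [h4] at h3
  exact h3.fderiv

/-- derivative of the identity near a point -/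
theorem fderiv_id_near (f : E → E) (r : ℝ) (hf : ∀ x, r < ‖x‖ → f x = x) (x : E) (hx : r < ‖x‖) :
    fderiv ℝ f x = ContinuousLinearMap.id ℝ E := by
  have h1 : f =ᶠ[𝓝 x] id := by
    have : {y : E | r < ‖y‖} ∈ 𝓝 x := (isOpen_lt continuous_const continuous_norm).mem_nhds hx
    filter_upwards [this] with y hy
    exact hf y hy
  rw [h1.fderiv_eq, fderiv_id]

end gen

/-- Packet STR. -/
theorem str (hMO : StmtMOSER) (hPO : StmtPOIN) (hBL : StmtBLOW) (hPB : StmtPB) : StmtSTR := by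
  intro n hn B B0 R ψ W δ hR hB hFar hW h0W hψs hψ0 hψd hψB hδ
  have hne : ∃ x : V n, R ≤ ‖x‖ := by
    have : Nonempty (Fin n) := ⟨⟨0, by omega⟩⟩
    have : Nontrivial (V n) := inferInstanceAs (Nontrivial ((Fin n → ℝ) × (Fin n → ℝ)))
    obtain ⟨x, hx⟩ := exists_norm_eq (V n) hR.le
    exact ⟨x, hx.ge⟩
  obtain ⟨x0, hx0⟩ := hne
  have hB0a : ∀ u, B0 u u = 0 := fun u => by rw [← hFar x0 hx0]; exact hB.alt x0 u
  have hB0n : ∀ u, (∀ v, B0 u v = 0) → u = 0 := fun u h =>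
    hB.nondeg x0 u (by rw [hFar x0 hx0]; exact h)
  have hB0s : Symp (fun _ : V n => B0) :=
    ⟨contDiff_const, fun _ u => hB0a u, fun x u v w => by simp, fun _ u h => hB0n u h⟩
  obtain ⟨δ', hδ', hst⟩ := nondeg_stable B0 hB0n
  obtain ⟨ε₁, hε₁, hbl⟩ := hBL (V n) ψ W (R + 1) (R + 2) δ' hW h0W hψs hψ0 hψd (by linarith)
    (by linarith) hδ'
  refine ⟨min ε₁ (δ / (2 * (R + 3))), lt_min hε₁ (by positivity), ?_⟩
  intro ε hε hεle Θ T hΘ hT1 hT2 hT3
  obtain ⟨P, hPs, hPid, hPW, hPψ, hPd⟩ := hbl ε hε (hεle.trans (min_le_left _ _))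
  have hεR : R + 3 < δ / ε := by
    have h1 : ε ≤ δ / (2 * (R + 3)) := hεle.trans (min_le_right _ _)
    rw [le_div_iff₀ (by linarith)] at h1
    rw [lt_div_iff₀ hε]
    nlinarith
  have hPid' : ∀ x, R + 2 < ‖x‖ → P x = x := fun x hx => hPid x hx.le
  have hPd' : Differentiable ℝ (fun y => P y) := hPs.1.differentiable (by simp)
  obtain ⟨hPBs, hPBp⟩ := hPB (V n) P (fun _ => B0) hPs hB0s
  obtain ⟨ζ, hζ⟩ : ∃ ζ : V n → V n →L[ℝ] V n →L[ℝ] ℝ,
      ζ = fun x => pb (fun x => P x) (fun _ => B0) x - B0 := ⟨_, rfl⟩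
  have hζv : ∀ x u v, ζ x u v =
      B0 (fderiv ℝ (fun y => P y) x u) (fderiv ℝ (fun y => P y) x v) - B0 u v := by
    intro x u v
    rw [hζ]
    simp [pb]
  have hζs : ContDiff ℝ ∞ ζ := by
    rw [hζ]
    exact hPBs.smooth.sub contDiff_const
  have hζd : ∀ x, fderiv ℝ ζ x = fderiv ℝ (pb (fun x => P x) (fun _ => B0)) x := by
    intro x
    rw [hζ]
    exact fderiv_sub_const (𝕜 := ℝ) (f := pb (fun x => P x) (fun _ => B0)) (x := x) B0
  have hζ0 : ∀ x, R + 3 ≤ ‖x‖ → ζ x = 0 := by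
    intro x hx
    refine ContinuousLinearMap.ext fun u => ContinuousLinearMap.ext fun v => ?_
    rw [hζv, fderiv_id_near (fun y => P y) (R + 2) hPid' x (by linarith)]
    simp
  have hζ1 : ∀ x, ‖x‖ < R + 1 → fderiv ℝ (fun y => P y) x = fderiv ℝ ψ (ε • x) := by
    intro x hx
    have h1 : (fun y => P y) =ᶠ[𝓝 x] fun y => ε⁻¹ • ψ (ε • y) := by
      have : {y : V n | ‖y‖ < R + 1} ∈ 𝓝 x :=
        (isOpen_lt continuous_norm continuous_const).mem_nhds hx
      filter_upwards [this] with y hy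
      have hy : ‖y‖ < R + 1 := hy
      exact hPψ y hy.le
    rw [h1.fderiv_eq]
    have h2 : ε • x ∈ W := hPW x (by linarith)
    exact fderiv_scale' ψ ε hε.ne' x
      ((hψs.differentiableOn (by simp)).differentiableAt (hW.mem_nhds h2))
  have hζ2 : ∀ x, ‖x‖ < R + 1 → ζ x = 0 := by
    intro x hx
    refine ContinuousLinearMap.ext fun u => ContinuousLinearMap.ext fun v => ?_
    rw [hζv, hζ1 x hx, hψB _ (hPW x (by linarith))]
    simp
  obtain ⟨β, hβs, hβ0, hβd⟩ := hPO n hn ζ (R + 3) (by linarith) hζs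
    (fun x u => by
      have h1 := hPBs.alt x u
      rw [hζ]
      show pb (fun x => P x) (fun _ => B0) x u u - B0 u u = 0
      rw [h1, hB0a, sub_zero])
    (fun x u v w => by rw [hζd]; exact hPBs.closed x u v w) hζ0
  have hβD : Differentiable ℝ β := hβs.differentiable (by simp)
  have hddt : ∀ (t : ℝ) (x : V n), dd (fun x => t • β x) x = t • ζ x := by
    intro t x
    rw [dd_smul β hβD, hβd]
  obtain ⟨F, hFs, hFid, hFp⟩ := hMO (V n) B (fun t x => t • β x) (closedBall 0 (R + 3)) hB.smooth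
    hB.alt hB.closed (contDiff_fst.smul (hβs.comp contDiff_snd)) (isCompact_closedBall _ _)
    (fun t _ x hx => by
      rw [mem_closedBall_zero_iff, not_le] at hx
      rw [hβ0 x hx.le, smul_zero, smul_zero])
    (fun t ht x u hu => by
      rcases lt_or_ge ‖x‖ (R + 1) with hx | hx
      · refine hB.nondeg x u fun v => ?_
        have := hu v
        rw [hddt, hζ2 x hx] at this
        simpa using this
      · refine hst _ t (hPd x) ht.1 ht.2 u fun v => ?_
        have := hu v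
        rw [hddt, hFar x (by linarith)] at this
        rw [← hζv]
        exact this)
  have hFid' : ∀ x, R + 3 < ‖x‖ → F x = x := fun x hx =>
    hFid x (by rw [mem_closedBall_zero_iff, not_le]; exact hx)
  have hFd' : Differentiable ℝ (fun y => F y) := hFs.1.differentiable (by simp)
  have hFp' : ∀ y u v, B (F y) (fderiv ℝ (fun y => F y) y u) (fderiv ℝ (fun y => F y) y v) +
      ζ (F y) (fderiv ℝ (fun y => F y) y u) (fderiv ℝ (fun y => F y) y v) = B y u v := by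
    intro y u v
    have h1 : (B (F y) + dd (fun x => (1 : ℝ) • β x) (F y)) (fderiv ℝ (fun y => F y) y u)
        (fderiv ℝ (fun y => F y) y v) = (B y + dd (fun x => (0 : ℝ) • β x) y) u v := hFp y u v
    have e0 : (B y + (0 : ℝ) • ζ y) u v = B y u v := by
      show B y u v + 0 * ζ y u v = B y u v
      ring
    rw [hddt, hddt, one_smul, e0] at h1
    exact h1
  obtain ⟨M, hM, hM'⟩ : ∃ M : V n ≃ V n, (∀ x, M x = ε • P (F (ε⁻¹ • x))) ∧
      ∀ x, M.symm x = ε • F.symm (P.symm (ε⁻¹ • x)) := by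
    refine ⟨⟨fun x => ε • P (F (ε⁻¹ • x)), fun x => ε • F.symm (P.symm (ε⁻¹ • x)), ?_, ?_⟩,
      fun _ => rfl, fun _ => rfl⟩
    · intro x
      simp [smul_smul, hε.ne']
    · intro x
      simp [smul_smul, hε.ne']
  have hM1 : (fun x => M x) = fun x => ε • (fun y => P (F y)) (ε⁻¹ • x) := funext hM
  have hM1' : (fun x => M.symm x) = fun x => ε • F.symm (P.symm (ε⁻¹ • x)) := funext hM'
  have hfar : ∀ x : V n, δ ≤ ‖x‖ → R + 3 < ‖ε⁻¹ • x‖ := by
    intro x hx
    rw [norm_smul, norm_inv, Real.norm_eq_abs, abs_of_pos hε, inv_mul_eq_div]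
    exact lt_of_lt_of_le hεR (div_le_div_of_nonneg_right hx hε.le)
  have hnear : ∀ x : V n, ‖x‖ < δ → ‖ε⁻¹ • x‖ < δ / ε := by
    intro x hx
    rw [norm_smul, norm_inv, Real.norm_eq_abs, abs_of_pos hε, inv_mul_eq_div]
    exact div_lt_div_of_pos_right hx hε
  have hMid : ∀ x : V n, δ ≤ ‖x‖ → M x = x := by
    intro x hx
    have h1 := hfar x hx
    rw [hM, hFid' _ h1, hPid' _ (by linarith), smul_smul, mul_inv_cancel₀ hε.ne', one_smul]
  have hMs : Sm M := by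
    constructor
    · rw [hM1]
      exact (contDiff_const_smul ε).comp ((hPs.1.comp hFs.1).comp (contDiff_const_smul ε⁻¹))
    · rw [hM1']
      exact (contDiff_const_smul ε).comp (hFs.2.comp (hPs.2.comp (contDiff_const_smul ε⁻¹)))
  refine ⟨M, hMs, ?_, ?_⟩
  · intro x hx
    rw [mem_closedBall_zero_iff, not_le] at hx
    exact hMid x hx.le
  · intro x u v
    show T (M x) (fderiv ℝ (fun x => M x) x u) (fderiv ℝ (fun x => M x) x v) =
      (Θ x + (B (ε⁻¹ • (x - 0)) - B0)) u v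
    rw [sub_zero]
    have hMd : fderiv ℝ (fun x => M x) x =
        (fderiv ℝ (fun y => P y) (F (ε⁻¹ • x))).comp (fderiv ℝ (fun y => F y) (ε⁻¹ • x)) := by
      rw [hM1, fderiv_scale (fun y => P (F y)) (hPd'.comp hFd') ε hε.ne' x]
      exact fderiv_comp (ε⁻¹ • x) (hPd' _) (hFd' _)
    rcases le_or_gt δ ‖x‖ with hx | hx
    · have h1 := hfar x hx
      have h2 : fderiv ℝ (fun x => M x) x = ContinuousLinearMap.id ℝ (V n) := by
        rw [hMd, hFid' _ h1, fderiv_id_near _ (R + 3) hFid' _ h1,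
          fderiv_id_near _ (R + 2) hPid' _ (by linarith)]
        rfl
      rw [h2, hMid x hx, hT1 x hx, hFar _ (by linarith)]
      simp
    · obtain ⟨w, hw⟩ : ∃ w, w = F (ε⁻¹ • x) := ⟨_, rfl⟩
      have hwn : ‖w‖ < δ / ε := by
        rw [hw]
        exact norm_lt_of_id F (R + 3) (δ / ε) hFid' hεR _ (hnear x hx)
      have hclaim : ∀ a b : V n, T (ε • P w) (fderiv ℝ (fun y => P y) w a)
          (fderiv ℝ (fun y => P y) w b) = B w a b + ζ w a b := by
        intro a b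
        rcases lt_or_ge ‖w‖ (R + 1) with hw1 | hw1
        · have h1 := hT3 (ε • w) (hPW w (by linarith)) a b
          rw [hζ2 w hw1, hζ1 w hw1, hPψ w hw1.le, smul_smul, mul_inv_cancel₀ hε.ne', one_smul, h1,
            smul_smul, inv_mul_cancel₀ hε.ne', one_smul]
          simp
        · have h1 : ‖P w‖ < δ / ε :=
            norm_lt_of_id P (R + 2) (δ / ε) hPid' (by linarith) _ hwn
          have h2 : ‖ε • P w‖ < δ := by
            rw [norm_smul, Real.norm_eq_abs, abs_of_pos hε]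
            rw [lt_div_iff₀ hε] at h1
            linarith
          have h3 := hT2 (ε • P w) h2 (fun x' hx' hx'n hx'e => by
            have h4 : ‖ε⁻¹ • x'‖ ≤ R := by
              rw [norm_smul, norm_inv, Real.norm_eq_abs, abs_of_pos hε, inv_mul_le_iff₀ hε]
              exact hx'n
            have h5 := hPψ (ε⁻¹ • x') (by linarith)
            rw [smul_smul ε ε⁻¹, mul_inv_cancel₀ hε.ne', one_smul, hx'e, smul_smul,
              inv_mul_cancel₀ hε.ne', one_smul] at h5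
            have h6 := P.injective h5
            rw [h6] at h4
            linarith)
          rw [h3, hζv, hFar w (by linarith)]
          ring
      rw [hM, ← hw, hMd, ← hw]
      show T (ε • P w) (fderiv ℝ (fun y => P y) w (fderiv ℝ (fun y => F y) (ε⁻¹ • x) u))
        (fderiv ℝ (fun y => P y) w (fderiv ℝ (fun y => F y) (ε⁻¹ • x) v)) = _
      rw [hclaim, hw, hFp', hΘ x hx]
      simp

end Pool.Agent.Helper50.SZ
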